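import Pool.Agent.H30.MV.RankThree

set_option autoImplicit false
open scoped ComplexOrder

namespace Pool.Agent.Results.MP_c9aa11_ag.RankThree

open Matrix

/-- The case `r = 3` of Q1. -/
theorem result :
    ∀ B : Fin 3 → Fin 3 → Matrix (Fin 3) (Fin 3) ℂ,
      (∀ ξ : Fin 3 → ℂ, ξ ≠ 0 →
          (∑ i : Fin 3, ∑ j : Fin 3, (ξ i * star (ξ j)) • B i j).PosDef) →
      (∑ i : Fin 3, B i i) = ((3 : ℕ) : ℂ) • (1 : Matrix (Fin 3) (Fin 3) ℂ) →
      (∀ i j : Fin 3, (B i j).trace = if i = j then ((3 : ℕ) : ℂ) else 0) →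
      0 < ∑ σ : Equiv.Perm (Fin 3),
            ((Equiv.Perm.sign σ : ℤ) : ℂ) *
              ((1 / (Nat.factorial 3 : ℂ)) *
                ∑ α : Equiv.Perm (Fin 3), ∑ ρ : Equiv.Perm (Fin 3),
                  ((Equiv.Perm.sign α : ℤ) : ℂ) * ((Equiv.Perm.sign ρ : ℤ) : ℂ) *
                    ∏ k : Fin 3, B k (σ k) (α k) (ρ k)) :=
  Pool.H30.MV.RankThree.result

end Pool.Agent.Results.MP_c9aa11_ag.RankThree
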