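import Mathlib
import Pool.Agent.H94.MD.Blocks

set_option autoImplicit false
open scoped ComplexOrder
open Matrix

namespace Pool.Agent.Results.MP_c9aa11_ag.BlockSums

open Pool.Agent.H94.MD

/-- **Block sums, `r` at least four.**  The index set is split by `c` into two exceptional parts
(colours `2`, `3`), a completely positive part (colour `0`) and a completely copositive part
(colour `1`); the terms in `x s`, `y s` are a separable perturbation on the exceptional part. -/
theorem result :
    ∀ (r : ℕ), 4 ≤ r → ∀ (c : Fin r → Fin 4) (B : Fin r → Fin r → Matrix (Fin r) (Fin r) ℂ)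
      (m : ℕ) (x y : Fin m → Fin r → ℂ),
      (Finset.univ.filter fun i => c i = 2).card ≤ 3 →
      (Finset.univ.filter fun i => c i = 3).card ≤ 3 →
      (Finset.univ.filter fun i => c i = 2 ∨ c i = 3).card ≤ 4 →
      (∀ i j, c i ≠ c j → B i j = 0) →
      (Matrix.of fun p q : {i : Fin r // c i = 0} × Fin r =>
          B p.1.1 q.1.1 p.2 q.2).PosSemidef →
      (Matrix.of fun p q : {i : Fin r // c i = 1} × Fin r =>
          B q.1.1 p.1.1 p.2 q.2).PosSemidef →
      (∀ ξ : Fin r → ℂ, ξ ≠ 0 →
          (∑ i : Fin r, ∑ j : Fin r, (ξ i * star (ξ j)) • B i j).PosDef) →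
      (∀ s i, c i = 0 ∨ c i = 1 → x s i = 0) →
      0 < ∑ σ : Equiv.Perm (Fin r),
            ((Equiv.Perm.sign σ : ℤ) : ℂ) *
              ((1 / (Nat.factorial r : ℂ)) *
                ∑ α : Equiv.Perm (Fin r), ∑ ρ : Equiv.Perm (Fin r),
                  ((Equiv.Perm.sign α : ℤ) : ℂ) * ((Equiv.Perm.sign ρ : ℤ) : ℂ) *
                    ∏ k : Fin r, (B k (σ k) (α k) (ρ k) +
                      ∑ s, x s k * star (x s (σ k)) * (y s (α k) * star (y s (ρ k))))) := by
  intro r _ c B m x y h2 h3 h23 hB hP hN hpos hx
  let F : Fin r → Fin r → Matrix (Fin r) (Fin r) ℂ :=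
    fun i j => B i j + ∑ s, sepF (x s) (y s) i j
  have hF : ∀ i j a b, F i j a b =
      B i j a b + ∑ s, x s i * star (x s j) * (y s a * star (y s b)) := by
    intro i j a b
    simp [F, sepF, Matrix.sum_apply, Matrix.vecMulVec_apply]
  have hgoal : 0 < (1 / (Nat.factorial r : ℂ)) * Phi F := by
    refine mul_pos (fact_pos r) ?_
    -- the splitting of the index set
    let A := {i : Fin r // c i = 2}
    let A' := {i : Fin r // c i = 3}
    let V := {i : Fin r // c i = 0}
    let W := {i : Fin r // c i = 1}
    let f : ((A ⊕ A') ⊕ V) ⊕ W → Fin r :=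
      Sum.elim (Sum.elim (Sum.elim Subtype.val Subtype.val) Subtype.val) Subtype.val
    have hcf : ∀ z, c (f z) = Sum.elim (Sum.elim (Sum.elim (fun _ => 2) (fun _ => 3))
        (fun _ => 0)) (fun _ => 1) z := by
      rintro (((z | z) | z) | z) <;> exact z.2
    have hfb : Function.Bijective f := by
      constructor
      · intro z z' h
        have hc := hcf z
        rw [h, hcf z'] at hc
        rcases z with ((z | z) | z) | z <;> rcases z' with ((z' | z') | z') | z' <;>
          first
          | (exfalso; simp at hc; done)
          | (have h' : z.1 = z'.1 := h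
             rw [Subtype.ext h'])
      · intro i
        rcases hc : c i with ⟨n, hn⟩
        interval_cases n
        · exact ⟨Sum.inl (Sum.inr ⟨i, hc⟩), rfl⟩
        · exact ⟨Sum.inr ⟨i, hc⟩, rfl⟩
        · exact ⟨Sum.inl (Sum.inl (Sum.inl ⟨i, hc⟩)), rfl⟩
        · exact ⟨Sum.inl (Sum.inl (Sum.inr ⟨i, hc⟩)), rfl⟩
    let e : ((A ⊕ A') ⊕ V) ⊕ W ≃ Fin r := Equiv.ofBijective f hfb
    have hce : ∀ z, c (e z) = Sum.elim (Sum.elim (Sum.elim (fun _ => 2) (fun _ => 3))
        (fun _ => 0)) (fun _ => 1) z := hcf
    rw [← Phi_reindex e]
    have hAc : Fintype.card A ≤ 3 := by rw [Fintype.card_subtype]; exact h2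
    have hA'c : Fintype.card A' ≤ 3 := by rw [Fintype.card_subtype]; exact h3
    have h4c : Fintype.card A + Fintype.card A' ≤ 4 := by
      rw [Fintype.card_subtype, Fintype.card_subtype]
      refine le_trans (le_of_eq ?_) h23
      rw [← Finset.card_union_of_disjoint, Finset.filter_or]
      rw [Finset.disjoint_filter]
      intro i _ h h'
      rw [h] at h'
      exact absurd h' (by decide)
    have hposB : PosF B := hpos
    have hposF : PosF F := by
      have key : ∀ S : Finset (Fin m), PosF (fun i j => B i j + ∑ s ∈ S, sepF (x s) (y s) i j) := by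
        intro S
        induction S using Finset.induction_on with
        | empty => simpa using hposB
        | insert s S hs ih =>
          have h1 : (fun i j => B i j + ∑ s ∈ insert s S, sepF (x s) (y s) i j) =
              fun i j => (B i j + ∑ s ∈ S, sepF (x s) (y s) i j) + sepF (x s) (y s) i j := by
            funext i j
            rw [Finset.sum_insert hs]
            abel
          rw [h1]
          exact posF_add_sep ih _ _
      exact key Finset.univ
    have hF0 : ∀ z z', c (e z) ≠ c (e z') → (c (e z) = 0 ∨ c (e z) = 1 ∨ c (e z') = 0 ∨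
        c (e z') = 1) → (F (e z) (e z')).submatrix e e = 0 := by
      intro z z' hne hor
      ext a b
      rw [Matrix.submatrix_apply, hF, hB _ _ hne]
      have h0 : ∀ s, x s (e z) * star (x s (e z')) = 0 := by
        intro s
        rcases hor with h | h | h | h
        · rw [hx s _ (Or.inl h), zero_mul]
        · rw [hx s _ (Or.inr h), zero_mul]
        · rw [hx s _ (Or.inl h), star_zero, mul_zero]
        · rw [hx s _ (Or.inr h), star_zero, mul_zero]
      rw [Finset.sum_eq_zero fun s _ => by rw [h0 s, zero_mul]]
      simp
    have hFV : ∀ z z', (c (e z) = 0 ∨ c (e z) = 1) → ∀ a b, F (e z) (e z') a b =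
        B (e z) (e z') a b := by
      intro z z' hor a b
      rw [hF, Finset.sum_eq_zero fun s _ => by rw [hx s _ hor, zero_mul, zero_mul], add_zero]
    refine main_blocks hAc hA'c h4c _ ?_ ?_ ?_ ?_ (posF_reindex e e hposF)
    · intro i j
      apply hF0
      · rw [hce, hce]
        rcases i with (i | i) | i <;> simp
      · rw [hce, hce]; simp
    · intro i j
      apply hF0
      · rw [hce, hce]
        rcases j with (j | j) | j <;> simp
      · rw [hce, hce]; simp
    · refine ⟨?_, ?_, ?_, ?_⟩
      · intro i j
        apply hF0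
        · rw [hce, hce]
          rcases i with i | i <;> simp
        · rw [hce, hce]; simp
      · intro i j
        apply hF0
        · rw [hce, hce]
          rcases j with j | j <;> simp
        · rw [hce, hce]; simp
      · refine ⟨fun i j => (B (e (Sum.inl (Sum.inl i))) (e (Sum.inl (Sum.inl j)))).submatrix e e,
          m, fun s i => x s (e (Sum.inl (Sum.inl i))), fun s a => y s (e a), ⟨?_, ?_⟩, ?_, ?_⟩
        · intro i j
          show (B _ _).submatrix e e = 0
          rw [hB]
          · rfl
          · rw [hce, hce]; simp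
        · intro i j
          show (B _ _).submatrix e e = 0
          rw [hB]
          · rfl
          · rw [hce, hce]; simp
        · exact posF_comp (posF_reindex e e hposB) (fun i => Sum.inl (Sum.inl i)) (by
            intro i j h
            simpa using h)
        · funext i j
          ext a b
          simp only [Matrix.submatrix_apply, hF, Matrix.add_apply, Matrix.sum_apply, sepF,
            Matrix.smul_apply, Matrix.vecMulVec_apply, smul_eq_mul, Pi.star_apply]
      · obtain ⟨n, M, hM⟩ := Matrix.posSemidef_iff_eq_sum_vecMulVec.mp hP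
        refine ⟨n, fun t v a => M t (v, e a), ?_⟩
        intro k j a b
        have h1 := congrFun (congrFun hM (k, e a)) (j, e b)
        simp only [Matrix.of_apply, Matrix.sum_apply, Matrix.vecMulVec_apply, Pi.star_apply] at h1
        rw [← h1]
        show F (e (Sum.inl (Sum.inr k))) (e (Sum.inl (Sum.inr j))) (e a) (e b) = _
        rw [hFV]
        · rfl
        · rw [hce]; simp
    · obtain ⟨n, M, hM⟩ := Matrix.posSemidef_iff_eq_sum_vecMulVec.mp hN
      refine ⟨n, fun t v a => M t (v, e a), ?_⟩
      intro k j a b
      have h1 := congrFun (congrFun hM (j, e a)) (k, e b)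
      simp only [Matrix.of_apply, Matrix.sum_apply, Matrix.vecMulVec_apply, Pi.star_apply] at h1
      rw [← h1]
      show F (e (Sum.inr k)) (e (Sum.inr j)) (e a) (e b) = _
      rw [hFV]
      · rfl
      · rw [hce]; simp
  have hfin := frozen_eq F
  rw [← hfin] at hgoal
  simpa only [hF] using hgoal

end Pool.Agent.Results.MP_c9aa11_ag.BlockSums
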