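import Pool.Agent.H30.MV.Decomposable

set_option autoImplicit false
open scoped ComplexOrder
open Matrix

namespace Pool.Agent.Results.MP_c9aa11_ag.Decomposable

/-- **The decomposable case of Q1, all `r`.**  `P` and `Q` are the Choi (block) matrices of the
completely positive and the completely copositive part. -/
theorem result :
    ∀ (r : ℕ) (P Q : Matrix (Fin r × Fin r) (Fin r × Fin r) ℂ), P.PosSemidef → Q.PosSemidef →
      ∀ B : Fin r → Fin r → Matrix (Fin r) (Fin r) ℂ,
      (∀ i j a b, B i j a b = P (i, a) (j, b) + Q (j, a) (i, b)) →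
      (∀ ξ : Fin r → ℂ, ξ ≠ 0 →
          (∑ i : Fin r, ∑ j : Fin r, (ξ i * star (ξ j)) • B i j).PosDef) →
      0 < ∑ σ : Equiv.Perm (Fin r),
            ((Equiv.Perm.sign σ : ℤ) : ℂ) *
              ((1 / (Nat.factorial r : ℂ)) *
                ∑ α : Equiv.Perm (Fin r), ∑ ρ : Equiv.Perm (Fin r),
                  ((Equiv.Perm.sign α : ℤ) : ℂ) * ((Equiv.Perm.sign ρ : ℤ) : ℂ) *
                    ∏ k : Fin r, B k (σ k) (α k) (ρ k)) :=
  Pool.H30.MV.Decomposable.result

end Pool.Agent.Results.MP_c9aa11_ag.Decomposable
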