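import Mathlib
import Pool.Agent.H94.EB.Main

set_option autoImplicit false
open scoped ComplexOrder
open Matrix

namespace Pool.Agent.Results.MP_c9aa11_ag.SecondChern

open Pool.Agent.H94.MD Pool.Agent.H94.EB

/-- The wedge product of the (1,1)-forms with matrices `P` and `R`, as a tensor with two
antisymmetric holomorphic and two antisymmetric antiholomorphic indices. -/
def wedge {r : ℕ} (P R : Matrix (Fin r) (Fin r) ℂ) (x y z w : Fin r) : ℂ :=
  P x z * R y w - P y z * R x w - P x w * R y z + P y w * R x z

/-- The second Chern form `F 0 0 ∧ F 1 1 - F 0 1 ∧ F 1 0` of a family of rank two. -/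
def chern2 {r : ℕ} (F : Fin 2 → Fin 2 → Matrix (Fin r) (Fin r) ℂ) (x y z w : Fin r) : ℂ :=
  wedge (F 0 0) (F 1 1) x y z w - wedge (F 0 1) (F 1 0) x y z w

/-- **Sums of blocks of size two with comparable second Chern forms.**  The index set is split
by `c` into `k` pairs `{a s, b s}`, a completely positive part (`Sum.inr true`) and a completely
copositive part (`Sum.inr false`). -/
theorem result :
    ∀ (r : ℕ), 4 ≤ r → ∀ (k : ℕ) (c : Fin r → Fin k ⊕ Bool) (a b : Fin k → Fin r)
      (B : Fin r → Fin r → Matrix (Fin r) (Fin r) ℂ)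
      (F : Fin 2 → Fin 2 → Matrix (Fin r) (Fin r) ℂ) (l : Fin k → ℝ)
      (m : ℕ) (P R : Fin k → Fin m → Matrix (Fin r) (Fin r) ℂ),
      (∀ s, a s ≠ b s) →
      (∀ i s, c i = Sum.inl s ↔ i = a s ∨ i = b s) →
      (∀ i j, c i ≠ c j → B i j = 0) →
      (Matrix.of fun p q : {i : Fin r // c i = Sum.inr true} × Fin r =>
          B p.1.1 q.1.1 p.2 q.2).PosSemidef →
      (Matrix.of fun p q : {i : Fin r // c i = Sum.inr false} × Fin r =>
          B q.1.1 p.1.1 p.2 q.2).PosSemidef →
      (∀ ξ : Fin r → ℂ, ξ ≠ 0 →
          (∑ i : Fin r, ∑ j : Fin r, (ξ i * star (ξ j)) • B i j).PosDef) →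
      (∀ ξ : Fin 2 → ℂ, ξ ≠ 0 →
          (∑ i : Fin 2, ∑ j : Fin 2, (ξ i * star (ξ j)) • F i j).PosDef) →
      (∀ s, 0 < l s) →
      (∀ s t, (P s t).PosSemidef) → (∀ s t, (R s t).PosSemidef) →
      (∀ s x y z w,
          chern2 ![![B (a s) (a s), B (a s) (b s)], ![B (b s) (a s), B (b s) (b s)]] x y z w =
            (l s : ℂ) * chern2 F x y z w + ∑ t, wedge (P s t) (R s t) x y z w) →
      0 < ∑ σ : Equiv.Perm (Fin r),
            ((Equiv.Perm.sign σ : ℤ) : ℂ) *
              ((1 / (Nat.factorial r : ℂ)) *
                ∑ α : Equiv.Perm (Fin r), ∑ ρ : Equiv.Perm (Fin r),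
                  ((Equiv.Perm.sign α : ℤ) : ℂ) * ((Equiv.Perm.sign ρ : ℤ) : ℂ) *
                    ∏ k : Fin r, B k (σ k) (α k) (ρ k)) := by
  intro r _ k c a b B F l m P R hab hc hB hP hN hpos hF hl hPs hRs hch
  have hgoal : 0 < (1 / (Nat.factorial r : ℂ)) * Phi B := by
    refine mul_pos (fact_pos r) ?_
    let V := {i : Fin r // c i = Sum.inr true}
    let W := {i : Fin r // c i = Sum.inr false}
    let f : ((Fin 2 × Fin k) ⊕ V) ⊕ W → Fin r :=
      Sum.elim (Sum.elim (fun x => if x.1 = 0 then a x.2 else b x.2) Subtype.val) Subtype.val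
    have hcf : ∀ z, c (f z) = Sum.elim (Sum.elim (fun x => Sum.inl x.2)
        (fun _ => Sum.inr true)) (fun _ => Sum.inr false) z := by
      rintro ((⟨i, s⟩ | z) | z)
      · show c (if i = 0 then a s else b s) = Sum.inl s
        rw [hc]
        split_ifs
        · exact Or.inl rfl
        · exact Or.inr rfl
      · exact z.2
      · exact z.2
    have hfb : Function.Bijective f := by
      constructor
      · intro z z' h
        have hcz := hcf z
        rw [h, hcf z'] at hcz
        rcases z with (⟨i, s⟩ | z) | z <;> rcases z' with (⟨j, t⟩ | z') | z'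
        · have hst : t = s := Sum.inl.inj hcz
          subst hst
          have h' : (if i = 0 then a t else b t) = (if j = 0 then a t else b t) := h
          have hij : i = j := by
            fin_cases i <;> fin_cases j
            · rfl
            · exact absurd h' (by simpa using hab t)
            · exact absurd h'.symm (by simpa using hab t)
            · rfl
          rw [hij]
        · exact absurd hcz (by simp)
        · exact absurd hcz (by simp)
        · exact absurd hcz (by simp)
        · have h' : z.1 = z'.1 := h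
          rw [Subtype.ext h']
        · exact absurd hcz (by simp)
        · exact absurd hcz (by simp)
        · exact absurd hcz (by simp)
        · have h' : z.1 = z'.1 := h
          rw [Subtype.ext h']
      · intro i
        rcases hci : c i with s | u
        · rcases (hc i s).mp hci with h | h
          · exact ⟨Sum.inl (Sum.inl (0, s)), h.symm⟩
          · exact ⟨Sum.inl (Sum.inl (1, s)), h.symm⟩
        · cases u
          · exact ⟨Sum.inr ⟨i, hci⟩, rfl⟩
          · exact ⟨Sum.inl (Sum.inr ⟨i, hci⟩), rfl⟩
    let e : ((Fin 2 × Fin k) ⊕ V) ⊕ W ≃ Fin r := Equiv.ofBijective f hfb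
    have hce : ∀ z, c (e z) = Sum.elim (Sum.elim (fun x => Sum.inl x.2)
        (fun _ => Sum.inr true)) (fun _ => Sum.inr false) z := hcf
    rw [← Phi_reindex e]
    have hposB : PosF B := hpos
    have hB0 : ∀ z z', c (e z) ≠ c (e z') → (B (e z) (e z')).submatrix e e = 0 := by
      intro z z' hne
      rw [hB _ _ hne]
      rfl
    refine main_eb _ ?_ ?_ ?_ ?_ (posF_reindex e e hposB)
    · intro i j
      apply hB0
      rw [hce, hce]
      rcases i with i | i <;> simp
    · intro i j
      apply hB0
      rw [hce, hce]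
      rcases j with j | j <;> simp
    · refine ⟨?_, ?_, ⟨?_, fun i j => (F i j).submatrix e e, l, m,
        fun s t => (P s t).submatrix e e, fun s t => (R s t).submatrix e e, ?_, hl,
        fun s t => (hPs s t).submatrix e, fun s t => (hRs s t).submatrix e, ?_⟩, ?_⟩
      · intro i j
        apply hB0
        rw [hce, hce]
        simp
      · intro i j
        apply hB0
        rw [hce, hce]
        simp
      · intro x y hxy
        apply hB0
        rw [hce, hce]
        simpa using hxy
      · exact posF_reindex (Equiv.refl (Fin 2)) e hF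
      · intro s x y z w
        have h1 := hch s (e x) (e y) (e z) (e w)
        exact h1
      · obtain ⟨n, M, hM⟩ := Matrix.posSemidef_iff_eq_sum_vecMulVec.mp hP
        refine ⟨n, fun t v a => M t (v, e a), ?_⟩
        intro k j a b
        have h1 := congrFun (congrFun hM (k, e a)) (j, e b)
        simp only [Matrix.of_apply, Matrix.sum_apply, Matrix.vecMulVec_apply, Pi.star_apply] at h1
        rw [← h1]
        rfl
    · obtain ⟨n, M, hM⟩ := Matrix.posSemidef_iff_eq_sum_vecMulVec.mp hN
      refine ⟨n, fun t v a => M t (v, e a), ?_⟩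
      intro k j a b
      have h1 := congrFun (congrFun hM (j, e a)) (k, e b)
      simp only [Matrix.of_apply, Matrix.sum_apply, Matrix.vecMulVec_apply, Pi.star_apply] at h1
      rw [← h1]
      rfl
  have hfin := frozen_eq B
  rw [← hfin] at hgoal
  exact hgoal

end Pool.Agent.Results.MP_c9aa11_ag.SecondChern
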